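import Pool.Agent.OVW.Final

/-!
# `RCA₀ + IΣ⁰₂ + OVW` is `Π¹₁`-conservative over `RCA₀ + IΣ⁰₂`
-/

namespace Pool.Agent.Results.MP_a8f5eb_lc.Conservation

open Pool.Agent.OVW

/-- Every `Π¹₁` formula which is provable in `RCA₀ + IΣ⁰₂ + OVW` is provable in `RCA₀ + IΣ⁰₂`
(question Q1, answered yes). -/
theorem result : Pi11PrfConservative theoryT theoryS := pi11PrfConservative

/-- The same for truth in all models (equivalent to `result` by `pi11Prf_iff`, that is, by the
completeness theorem for the calculus `Prf`). -/
theorem semantic : Pi11Conservative theoryT theoryS := pi11Conservative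

end Pool.Agent.Results.MP_a8f5eb_lc.Conservation
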